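import Mathlib
import Pool.Agent.W568.KK

/-!
# MP_b5e666_co (Kahn-Kalai): shifted intersecting families

Every intersecting family on `n` points contained in an intersecting family which is shifted with
respect to some linear order of the points splits into `n` classes, each 2-intersecting.
-/

set_option autoImplicit false

namespace Pool.Agent.Results.MP_b5e666_co.ShiftedFamilies

open Finset Pool.Agent.W568.KK

/-- the embedding of `Fin n` into `ℕ` given by a relabelling -/
def emb {n : ℕ} (σ : Equiv.Perm (Fin n)) : Fin n ↪ ℕ :=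
  ⟨fun a => (σ a : ℕ), fun _ _ h => σ.injective (Fin.ext h)⟩

theorem mem_map_emb {n : ℕ} (σ : Equiv.Perm (Fin n)) (s : Finset (Fin n)) (i : Fin n) :
    (σ i : ℕ) ∈ s.map (emb σ) ↔ i ∈ s := by
  rw [mem_map]
  constructor
  · rintro ⟨j, hj, h⟩
    have : j = i := σ.injective (Fin.ext h)
    rwa [← this]
  · intro h
    exact ⟨i, h, rfl⟩

theorem result :
    ∀ n : ℕ, 1 ≤ n → ∀ H K : Finset (Finset (Fin n)), H ⊆ K →
      (K : Set (Finset (Fin n))).Intersecting →
      (∃ σ : Equiv.Perm (Fin n), ∀ s ∈ K, ∀ i j : Fin n, σ i < σ j → i ∉ s → j ∈ s →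
        insert i (s.erase j) ∈ K) →
      ∃ f : Finset (Fin n) → Fin n,
        ∀ F ∈ H, ∀ F' ∈ H, F ≠ F' → f F = f F' → 2 ≤ (F ∩ F').card := by
  intro n hn H K hHK hint hσ
  obtain ⟨σ, hσ⟩ := hσ
  have hinj : Function.Injective (fun s : Finset (Fin n) => s.map (emb σ)) :=
    map_injective (emb σ)
  have hS : Sh n (K.image (fun s => s.map (emb σ))) := by
    refine ⟨?_, ?_, ?_⟩
    · intro x hx k hk
      obtain ⟨s, _, rfl⟩ := mem_image.1 hx
      obtain ⟨i, _, rfl⟩ := mem_map.1 hk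
      exact mem_range.2 (σ i).isLt
    · intro x hx y hy
      obtain ⟨s, hs, rfl⟩ := mem_image.1 hx
      obtain ⟨t, ht, rfl⟩ := mem_image.1 hy
      intro hd
      exact hint hs ht ((disjoint_map (emb σ)).1 hd)
    · intro x hx i j hij hi hj
      obtain ⟨s, hs, rfl⟩ := mem_image.1 hx
      obtain ⟨b, hb, rfl⟩ := mem_map.1 hj
      have hjn : (emb σ b) < n := (σ b).isLt
      obtain ⟨a, ha⟩ : ∃ a : Fin n, emb σ a = i := by
        refine ⟨σ.symm ⟨i, by omega⟩, ?_⟩
        show ((σ (σ.symm ⟨i, _⟩) : Fin n) : ℕ) = i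
        simp
      subst ha
      have ha' : a ∉ s := fun h => hi ((mem_map_emb σ s a).2 h)
      refine mem_image.2 ⟨insert a (s.erase b), hσ s hs a b (Fin.lt_def.2 hij) ha' hb, ?_⟩
      show (insert a (s.erase b)).map (emb σ) = _
      rw [map_insert, map_erase]
  obtain ⟨f, hf1, hf2⟩ := coloring hn hS
  refine ⟨fun s => if h : f (s.map (emb σ)) < n then ⟨f (s.map (emb σ)), h⟩ else ⟨0, by omega⟩, ?_⟩
  intro F hF F' hF' hne hff
  have m1 : F.map (emb σ) ∈ K.image (fun s => s.map (emb σ)) := mem_image_of_mem _ (hHK hF)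
  have m2 : F'.map (emb σ) ∈ K.image (fun s => s.map (emb σ)) := mem_image_of_mem _ (hHK hF')
  simp only [hf1 _ m1, hf1 _ m2, dif_pos, Fin.mk.injEq] at hff
  have h := hf2 _ m1 _ m2 (fun h => hne (hinj h)) hff
  rwa [← map_inter, card_map] at h

end Pool.Agent.Results.MP_b5e666_co.ShiftedFamilies
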